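import Mathlib
import Pool.Agent.H90.P.Ns

/-!
Subfields of ruled function fields: finite generation, uniruledness, pseudo-effectivity.
-/

set_option autoImplicit false
set_option linter.overlappingInstances false
set_option linter.unusedSectionVars false

open FF IntermediateField Pool.Agent.W603.LV

namespace Pool.Agent.TH466.QG


section fg

variable {k F K : Type} [Field k] [Field F] [Field K] [Algebra k F] [Algebra k K] [Algebra F K]
  [IsScalarTower k F K]

/-- subfields of finite index of finitely generated fields are finitely generated -/
theorem ess_below [FiniteDimensional F K] [hK : Algebra.EssFiniteType k K] :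
    Algebra.EssFiniteType k F := by
  have hKF : Algebra.IsAlgebraic F K := inferInstance
  obtain ⟨s, hs⟩ := exists_isTranscendenceBasis k F
  -- the transcendence basis is finite
  have hfin : Set.Finite s := by
    have h1 : IsTranscendenceBasis k (algebraMap F K ∘ ((↑) : s → F)) := hs.algebraMap_comp
    have h2 : Algebra.trdeg k K < Cardinal.aleph0 := trdeg_lt_aleph0 k K
    have h3 := h1.cardinalMk_eq_trdeg
    rw [← h3] at h2
    exact Cardinal.lt_aleph0_iff_set_finite.1 h2
  let A : IntermediateField k F := adjoin k s
  have hA : Algebra.EssFiniteType k A := by
    rw [essFiniteType_iff]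
    exact ⟨hfin.toFinset, by rw [Set.Finite.coe_toFinset]⟩
  have t1 : IsScalarTower A F K := inferInstance
  have t2 : IsScalarTower k A K := IsScalarTower.of_algebraMap_eq fun x => by
    rw [IsScalarTower.algebraMap_apply k F K, IsScalarTower.algebraMap_apply A F K,
      ← IsScalarTower.algebraMap_apply k A F]
  have hAF : Algebra.IsAlgebraic A F := by
    have h1 := hs.isAlgebraic_field
    rwa [Subtype.range_coe] at h1
  have hAK : Algebra.IsAlgebraic A K := Algebra.IsAlgebraic.trans A F K
  have hAess : Algebra.EssFiniteType A K := Algebra.EssFiniteType.of_comp k A K
  have hAKfin : Module.Finite A K := Algebra.finite_of_essFiniteType_of_isAlgebraic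
  have hAFfin : Module.Finite A F := by
    refine Module.Finite.of_injective
      ((IsScalarTower.toAlgHom A F K).toLinearMap) (algebraMap F K).injective
  have hAFess : Algebra.EssFiniteType A F := inferInstance
  exact Algebra.EssFiniteType.comp k A F

end fg

section

variable {k F K : Type} [Field k] [CharZero k] [IsAlgClosed k] [Field F] [Field K] [Algebra k F]
  [Algebra k K] [Algebra F K] [IsScalarTower k F K]

end

end Pool.Agent.TH466.QG
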